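import Pool.Agent.Helper45.LinK.GoalsK

/-! # Fixed points of affine actions of nilpotent type without invariant vectors -/

open Complex Metric Set Filter Topology MeasureTheory

namespace Pool.Agent.Helper62.LinK

open Pool.Agent.Helper45.LinK Pool.Agent.Helper95.Lin

section

variable {V : Type} [AddCommGroup V] [Module ℂ V] {N : Type} [Group N]

/-- Two sided relation of a cocycle at a commutator acting trivially. -/
theorem comm_rel (A : N →* Module.End ℂ V) (a : N → V)
    (ha : ∀ ν ν', a (ν * ν') = A ν (a ν') + a ν) (f c : N)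
    (h1 : A (f * c * f⁻¹ * c⁻¹) = 1) (h2 : a (f * c * f⁻¹ * c⁻¹) = 0) :
    A f * A c = A c * A f ∧ A f (a c) + a f = A c (a f) + a c := by
  have e : (f * c * f⁻¹ * c⁻¹) * (c * f) = f * c := by group
  constructor
  · have := congrArg A e
    rw [map_mul, h1, one_mul, map_mul, map_mul] at this
    exact this.symm
  · have := congrArg a e
    rw [ha, h1, h2, ha, ha] at this
    simpa using this.symm

theorem commute_all (A : N →* Module.End ℂ V) (F : Set N) (hF : Subgroup.closure F = ⊤)
    (T : Module.End ℂ V) (h : ∀ f ∈ F, A f * T = T * A f) (ν : N) : A ν * T = T * A ν := by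
  have hν : ν ∈ Subgroup.closure F := by rw [hF]; trivial
  induction hν using Subgroup.closure_induction with
  | mem x hx => exact h x hx
  | one => simp
  | mul x y _ _ hx hy => rw [map_mul, mul_assoc, hy, ← mul_assoc, hx, mul_assoc]
  | inv x _ hx =>
    have h1 : A x⁻¹ * A x = 1 := by rw [← map_mul]; simp
    have h2 : A x * A x⁻¹ = 1 := by rw [← map_mul]; simp
    calc A x⁻¹ * T = A x⁻¹ * T * (A x * A x⁻¹) := by rw [h2, mul_one]
      _ = A x⁻¹ * (T * A x) * A x⁻¹ := by simp only [mul_assoc]
      _ = A x⁻¹ * (A x * T) * A x⁻¹ := by rw [hx]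
      _ = (A x⁻¹ * A x) * T * A x⁻¹ := by simp only [mul_assoc]
      _ = T * A x⁻¹ := by rw [h1, one_mul]

theorem cocycle_mem (A : N →* Module.End ℂ V) (b : N → V)
    (hb : ∀ ν ν', b (ν * ν') = A ν (b ν') + b ν) (K : Submodule ℂ V)
    (hK : ∀ ν, ∀ x ∈ K, A ν x ∈ K) (F : Set N) (hF : Subgroup.closure F = ⊤)
    (h : ∀ f ∈ F, b f ∈ K) (ν : N) : b ν ∈ K := by
  have hν : ν ∈ Subgroup.closure F := by rw [hF]; trivial
  have h1 : b 1 = 0 := by
    have := hb 1 1
    simpa using this
  induction hν using Subgroup.closure_induction with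
  | mem x hx => exact h x hx
  | one => rw [h1]; exact K.zero_mem
  | mul x y _ _ hx hy => rw [hb]; exact K.add_mem (hK _ _ hy) hx
  | inv x _ hx =>
    have := hb x⁻¹ x
    rw [inv_mul_cancel, h1] at this
    have e : b x⁻¹ = - A x⁻¹ (b x) := by
      rw [eq_neg_iff_add_eq_zero, add_comm]; exact this.symm
    rw [e]
    exact K.neg_mem (hK _ _ hx)

end

theorem fixn_aux (d : ℕ) : ∀ (n : ℕ) (V : Type) [AddCommGroup V] [Module ℂ V]
    [FiniteDimensional ℂ V]
    {N : Type} [Group N] (A : N →* Module.End ℂ V) (a : N → V), Module.finrank ℂ V = d →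
    (∀ ν ν', a (ν * ν') = A ν (a ν') + a ν) →
    (∀ ν u, (A ν - 1) ((A ν - 1) u) = 0 → (A ν - 1) u = 0) →
    ∀ F : Set N, Subgroup.closure F = ⊤ → (∀ c ∈ CommL F n, A c = 1 ∧ a c = 0) →
    (∀ v, (∀ f ∈ F, A f v = v) → v = 0) → ∃ p, ∀ f ∈ F, A f p + a f = p := by
  induction d using Nat.strong_induction_on with
  | _ d IH =>
  intro n
  induction n with
  | zero =>
    intro V _ _ _ N _ A a _ _ _ F _ hc _
    refine ⟨0, fun f hf => ?_⟩
    rw [(hc f hf).2]; simp
  | succ n IHn =>
    intro V _ _ _ N _ A a hd ha hss F hF hc hfix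
    by_cases hT : ∀ c ∈ CommL F n, A c = 1
    · refine IHn V A a hd ha hss F hF (fun c hcc => ⟨hT c hcc, ?_⟩) hfix
      apply hfix
      intro f hf
      have hx := hc (f * c * f⁻¹ * c⁻¹) ⟨f, hf, c, hcc, rfl⟩
      have := (comm_rel A a ha f c hx.1 hx.2).2
      rw [hT c hcc, Module.End.one_apply, add_comm (a f)] at this
      exact add_right_cancel this
    · push Not at hT
      obtain ⟨c, hcc, hT⟩ := hT
      set S : Module.End ℂ V := A c - 1 with hS
      have hcomm : ∀ ν, A ν * A c = A c * A ν := commute_all A F hF (A c) (fun f hf => by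
        have hx := hc (f * c * f⁻¹ * c⁻¹) ⟨f, hf, c, hcc, rfl⟩
        exact (comm_rel A a ha f c hx.1 hx.2).1)
      have hcS : ∀ ν x, A ν (S x) = S (A ν x) := by
        intro ν x
        have := congrArg (fun L : Module.End ℂ V => L x) (hcomm ν)
        simp only [Module.End.mul_apply] at this
        simp [hS, this]
      have hdisj : Disjoint (LinearMap.ker S) (LinearMap.range S) := by
        rw [Submodule.disjoint_def]
        rintro x hx ⟨y, rfl⟩
        exact hss c y hx
      have htop : LinearMap.ker S ⊔ LinearMap.range S = ⊤ := by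
        apply Submodule.eq_top_of_disjoint _ _ _ hdisj
        rw [add_comm, LinearMap.finrank_range_add_finrank_ker]
      have hKA : ∀ ν, ∀ x ∈ LinearMap.ker S, A ν x ∈ LinearMap.ker S := by
        intro ν x hx
        rw [LinearMap.mem_ker] at hx ⊢
        rw [← hcS, hx, map_zero]
      obtain ⟨k, hk, w, ⟨x, hx⟩, hkx⟩ : ∃ k ∈ LinearMap.ker S, ∃ w ∈ LinearMap.range S,
          k + w = a c := Submodule.mem_sup.1 (by rw [htop]; trivial)
      set b : N → V := fun ν => a ν + A ν (-x) - (-x) with hb
      have hbc : ∀ ν ν', b (ν * ν') = A ν (b ν') + b ν := by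
        intro ν ν'
        simp only [hb, ha, map_mul, Module.End.mul_apply, map_add, map_sub]
        abel
      have hb1 : ∀ y ∈ CommL F (n + 1), b y = 0 := by
        intro y hy
        simp only [hb]
        rw [(hc y hy).1, (hc y hy).2]
        simp
      have hbk : b c = k := by
        have e : a c + A c (-x) - (-x) = a c - S x := by
          simp only [hS, LinearMap.sub_apply, Module.End.one_apply, map_neg]
          abel
        simp only [hb]
        rw [e, hx, ← hkx, add_sub_cancel_right]
      have hbf : ∀ f ∈ F, b f ∈ LinearMap.ker S := by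
        intro f hf
        have hm : f * c * f⁻¹ * c⁻¹ ∈ CommL F (n + 1) := ⟨f, hf, c, hcc, rfl⟩
        have h2 := (comm_rel A b hbc f c (hc _ hm).1 (hb1 _ hm)).2
        have h3 : S (b f) = A f (b c) - b c := by
          have : S (b f) = A c (b f) - b f := by simp [hS]
          rw [this, sub_eq_sub_iff_add_eq_add, ← h2]
        have h4 : S (b f) ∈ LinearMap.ker S := by
          rw [h3, hbk]
          exact Submodule.sub_mem _ (hKA f k hk) hk
        exact (Submodule.disjoint_def.1 hdisj) _ h4 ⟨b f, rfl⟩
      have hbK := cocycle_mem A b hbc (LinearMap.ker S) hKA F hF hbf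
      have hlt : Module.finrank ℂ (LinearMap.ker S) < d := by
        rw [← hd]
        apply Submodule.finrank_lt
        intro h
        rw [LinearMap.ker_eq_top] at h
        exact hT (sub_eq_zero.1 h)
      let A' : N →* Module.End ℂ (LinearMap.ker S) :=
        { toFun := fun ν => (A ν).restrict (hKA ν)
          map_one' := by ext v; simp
          map_mul' := fun ν ν' => by ext v; simp }
      have hA' : ∀ ν (v : LinearMap.ker S), ((A' ν v : LinearMap.ker S) : V) = A ν v :=
        fun ν v => rfl
      obtain ⟨q, hq⟩ := IH _ hlt (n + 1) (LinearMap.ker S) A' (fun ν => ⟨b ν, hbK ν⟩) rfl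
        (fun ν ν' => Subtype.ext (by simp [hbc, hA']))
        (fun ν u hu => by
          have := hss ν u (by
            have := congrArg (Subtype.val) hu
            simpa [hA'] using this)
          apply Subtype.ext
          simpa [hA'] using this)
        F hF
        (fun y hy => ⟨by
          ext v
          simp [hA', (hc y hy).1], Subtype.ext (hb1 y hy)⟩)
        (fun v hv => by
          apply Subtype.ext
          exact hfix v (fun f hf => by
            have := congrArg (Subtype.val) (hv f hf)
            simpa [hA'] using this))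
      refine ⟨q + -x, fun f hf => ?_⟩
      have := congrArg (Subtype.val) (hq f hf)
      simp only [Submodule.coe_add, hA', hb] at this
      rw [map_add]
      have e : A f (q : V) + A f (-x) + a f = (A f (q : V) + (a f + A f (-x) - (-x))) + (-x) := by
        abel
      rw [e, this]

/-- Fixed points of affine actions of nilpotent type without invariant vectors. -/
theorem fixn : S_FIXN := by
  intro n V _ _ _ N _ A a ha hss F hF hc hfix
  exact fixn_aux _ n V A a rfl ha hss F hF hc hfix

end Pool.Agent.Helper62.LinK
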